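import Mathlib
import Pool.Agent.Y685.SY.Stm

/-!
# Project SY, job CONV: mollifications of continuous functions converge uniformly
-/

set_option maxSynthPendingDepth 3
set_option autoImplicit false

open scoped Manifold ContDiff Topology ENNReal
open MeasureTheory Set Metric

namespace Pool.Agent.Y839.SY

theorem t_CONV (E : Type) [NormedAddCommGroup E] [InnerProductSpace ℝ E] [FiniteDimensional ℝ E]
    [MeasurableSpace E] [BorelSpace E] : Pool.Agent.Y685.SY.S_CONV E := by
  intro V _ _ _ A S K _ hK hA r₀ hr₀ hSK η hη
  have huc := hK.uniformContinuousOn_of_continuous hA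
  rw [Metric.uniformContinuousOn_iff] at huc
  obtain ⟨d, hd, hdd⟩ := huc η hη
  refine ⟨min d r₀, lt_min hd hr₀, fun ρ hρ x hx => ?_⟩
  have hxK : x ∈ K := hSK (self_subset_cthickening S hx)
  have hnear : ∀ y : E, ρ.normed volume (x - y) ≠ 0 → y ∈ K ∧ ‖A y - A x‖ ≤ η := by
    intro y hy
    have h1 : x - y ∈ Function.support (ρ.normed volume) := hy
    rw [ContDiffBump.support_normed_eq, mem_ball_zero_iff] at h1
    have h2 : dist y x < ρ.rOut := by rwa [dist_comm, dist_eq_norm]
    have hyK : y ∈ K := hSK (mem_cthickening_of_dist_le y x r₀ S hx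
      (h2.le.trans (hρ.le.trans (min_le_right _ _))))
    refine ⟨hyK, ?_⟩
    have h3 := hdd y hyK x hxK (h2.trans (hρ.trans_le (min_le_left _ _)))
    rw [dist_eq_norm] at h3
    exact h3.le
  have hint : Integrable (fun y => ρ.normed volume (x - y)) :=
    (ρ.integrable_normed (μ := volume)).comp_sub_left x
  have hone : ∫ y, ρ.normed volume (x - y) = 1 := by
    rw [integral_sub_left_eq_self (fun y => ρ.normed volume y) volume x, ρ.integral_normed]
  have hint1 : Integrable (fun y => ρ.normed volume (x - y) • K.indicator A y) := by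
    have h1 : (fun y => ρ.normed volume (x - y) • K.indicator A y) =
        K.indicator fun y => ρ.normed volume (x - y) • A y := by
      rw [indicator_smul]
    rw [h1, integrable_indicator_iff hK.measurableSet]
    refine ContinuousOn.integrableOn_compact hK (ContinuousOn.smul ?_ hA)
    exact ((ρ.continuous_normed).comp (continuous_const.sub continuous_id)).continuousOn
  have hint2 : Integrable (fun y => ρ.normed volume (x - y) • A x) := hint.smul_const (A x)
  have heq : (∫ y, ρ.normed volume (x - y) • K.indicator A y) - A x =
      ∫ y, (ρ.normed volume (x - y) • K.indicator A y - ρ.normed volume (x - y) • A x) := by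
    rw [integral_sub hint1 hint2, integral_smul_const, hone, one_smul]
  rw [heq]
  have hle : ‖∫ y, (ρ.normed volume (x - y) • K.indicator A y - ρ.normed volume (x - y) • A x)‖ ≤
      ∫ y, ρ.normed volume (x - y) * η := by
    refine norm_integral_le_of_norm_le (hint.mul_const η) (Filter.Eventually.of_forall fun y => ?_)
    rw [← smul_sub, norm_smul, Real.norm_eq_abs, abs_of_nonneg (ρ.nonneg_normed _)]
    by_cases hy : ρ.normed volume (x - y) = 0
    · rw [hy, zero_mul, zero_mul]
    · obtain ⟨h1, h2⟩ := hnear y hy
      rw [indicator_of_mem h1]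
      exact mul_le_mul_of_nonneg_left h2 (ρ.nonneg_normed _)
  refine hle.trans (le_of_eq ?_)
  rw [integral_mul_const, hone, one_mul]

end Pool.Agent.Y839.SY
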